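import Pool.Agent.W2helper37.DP.Stm2

set_option autoImplicit false

namespace Pool.Agent.W2helper11.DPD

open Set Pool.Agent.H42.Dom Pool.Agent.H30.Dia Pool.Agent.W2helper37.DP

lemma le_comp {t : Lv} {x y z : Nd} (h : Le t x z) (h' : Le t y z) (hxy : x.1 ≤ y.1) : Le t x y :=
  ⟨hxy, fun ξ hξ => (h.2 ξ hξ).trans (h'.2 ξ (hξ.trans hxy)).symm⟩

lemma le_cmp {t : Lv} {x y z : Nd} (h : Le t x z) (h' : Le t y z) : Le t x y ∨ Le t y x :=
  (le_total x.1 y.1).imp (le_comp h h') (le_comp h' h)

lemma dcd_mono {t : Lv} {n : ℕ} {r : Fin n → Nd} {A : Set (Fin n → Nd)} {y y' : Fin n → Nd}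
    (hl : ∀ i, (r i).1 ≤ (y i).1) (hy : ∀ i, Le t (y i) (y' i)) (h : Dcd t r A y) :
    Dcd t r A y' := by
  intro hr
  rcases h (fun i => le_comp (hr i) (hy i) (hl i)) with ⟨a, ha, h1⟩ | h1
  · exact Or.inl ⟨a, ha, fun i => (h1 i).trans (hy i)⟩
  · refine Or.inr fun a ha => ?_
    obtain ⟨i, h2, h3⟩ := h1 a ha
    refine ⟨i, fun h4 => ?_, fun h4 => h3 ((hy i).trans h4)⟩
    rcases le_cmp h4 (hy i) with h5 | h5
    · exact h2 h5
    · exact h3 h5

theorem p_dec : P_DEC := by
  classical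
  intro t ht n r hr A hA u
  obtain ⟨β, hβ⟩ := Pool.Agent.H30.Spl.W1_bdd (countable_range (fun i => (r i).1))
  have h0 : ∀ x : Nd, ∃ y : Nd, Le t x y ∧ ∀ i, (r i).1 ≤ y.1 := by
    intro x
    obtain ⟨l, hl⟩ := ht.E x (max x.1 β) (le_max_left _ _)
    exact ⟨_, hl, fun i => (hβ _ ⟨i, rfl⟩).le.trans (le_max_right _ _)⟩
  choose e0 he0 he0l using h0
  have key : ∀ s : Finset (Fin n → Nd), ∃ e : Nd → Nd, (∀ x, Le t (e0 x) (e x)) ∧
      ∀ τ ∈ s, Dcd t r A (fun i => e (τ i)) := by
    intro s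
    induction s using Finset.induction_on with
    | empty => exact ⟨e0, fun x => Le.refl t _, fun τ hτ => absurd hτ (Finset.notMem_empty τ)⟩
    | insert τ s _ ih =>
      obtain ⟨e, he, hs⟩ := ih
      have hlev : ∀ x i, (r i).1 ≤ (e x).1 := fun x i => (he0l x i).trans (he x).1
      by_cases h0 : ∀ i, Le t (r i) (e (τ i))
      swap
      · refine ⟨e, he, fun σ hσ => ?_⟩
        rcases Finset.mem_insert.1 hσ with rfl | h
        · exact fun h => absurd h h0
        · exact hs σ h
      by_cases h1 : ∀ a ∈ A, ∃ i, ¬ Le t (a i) (e (τ i)) ∧ ¬ Le t (e (τ i)) (a i)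
      · refine ⟨e, he, fun σ hσ => ?_⟩
        rcases Finset.mem_insert.1 hσ with rfl | h
        · exact fun _ => Or.inr h1
        · exact hs σ h
      push Not at h1
      obtain ⟨a, ha, h2⟩ := h1
      have hinj : ∀ i j, τ i = τ j → i = j := by
        intro i j hij
        by_contra hne
        have h3 := h0 j
        rw [← hij] at h3
        rcases le_cmp (h0 i) h3 with h4 | h4
        · exact hr i j hne h4
        · exact hr j i (Ne.symm hne) h4
      let e' : Nd → Nd := fun x => if h : ∃ i, τ i = x ∧ Le t (e x) (a i) then a h.choose else e x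
      have he'1 : ∀ x, Le t (e x) (e' x) := by
        intro x
        by_cases h : ∃ i, τ i = x ∧ Le t (e x) (a i)
        · have h3 : e' x = a h.choose := dif_pos h
          rw [h3]
          exact h.choose_spec.2
        · have h3 : e' x = e x := dif_neg h
          rw [h3]
          exact Le.refl t _
      have he'2 : ∀ i, Le t (a i) (e' (τ i)) := by
        intro i
        by_cases h : ∃ j, τ j = τ i ∧ Le t (e (τ i)) (a j)
        · have h3 : e' (τ i) = a h.choose := dif_pos h
          have h4 : h.choose = i := hinj _ _ h.choose_spec.1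
          rw [h3, h4]
          exact Le.refl t _
        · have h3 : e' (τ i) = e (τ i) := dif_neg h
          rw [h3]
          by_contra h4
          exact h ⟨i, rfl, h2 i h4⟩
      refine ⟨e', fun x => (he x).trans (he'1 x), fun σ hσ => ?_⟩
      rcases Finset.mem_insert.1 hσ with rfl | h
      · exact fun _ => Or.inl ⟨a, ha, he'2⟩
      · exact dcd_mono (fun i => hlev _ i) (fun i => he'1 _) (hs σ h)
  obtain ⟨e, he, hs⟩ := key (Fintype.piFinset fun _ => u)
  refine ⟨u.image e, fun x hx i => ?_, fun y hy => ?_, fun x hx => ?_⟩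
  · obtain ⟨x0, -, rfl⟩ := Finset.mem_image.1 hx
    exact (he0l x0 i).trans (he x0).1
  · have h1 : ∀ i, ∃ x ∈ u, e x = y i := fun i => Finset.mem_image.1 (hy i)
    choose τ hτ1 hτ2 using h1
    have h2 := hs τ (Fintype.mem_piFinset.2 hτ1)
    have h3 : (fun i => e (τ i)) = y := funext hτ2
    rwa [h3] at h2
  · exact ⟨e x, Finset.mem_image_of_mem _ hx, (he0 x).trans (he x)⟩

end Pool.Agent.W2helper11.DPD
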