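import Pool.Agent.W2helper37.DP.Stm2

set_option autoImplicit false

namespace Pool.Agent.W2helper11.DP

open Set Pool.Agent.H42.Dom Pool.Agent.H30.Dia Pool.Agent.W2helper37.DP

lemma le_comp {t : Lv} {x y z : Nd} (h : Le t x z) (h' : Le t y z) (hxy : x.1 ≤ y.1) : Le t x y :=
  ⟨hxy, fun ξ hξ => (h.2 ξ hξ).trans (h'.2 ξ (hξ.trans hxy)).symm⟩

lemma le_cmp {t : Lv} {x y z : Nd} (h : Le t x z) (h' : Le t y z) : Le t x y ∨ Le t y x :=
  (le_total x.1 y.1).imp (le_comp h h') (le_comp h' h)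

theorem p_free (hDEC : P_DEC) : P_FREE := by
  classical
  intro t ht n r hr A hA hanti
  let D : Set (Finset Nd) := {d | (∀ x ∈ d, ∀ i, (r i).1 ≤ x.1) ∧
    ∀ y : Fin n → Nd, (∀ i, y i ∈ d) → Dcd t r A y}
  obtain ⟨δ, hδ⟩ := ht.G D (fun u _ => by
    obtain ⟨d, h1, h2, h3⟩ := hDEC t ht n r hr A hA u
    exact ⟨d, ⟨h1, h2⟩, h3⟩)
  have key : ∀ a ∈ A, ∀ i, (a i).1 < δ := by
    intro a ha i0
    have hz : ∀ i, ∃ z : Nd, Le t (a i) z ∧ δ ≤ z.1 := by
      intro i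
      obtain ⟨l, hl⟩ := ht.E (a i) (max (a i).1 δ) (le_max_left _ _)
      exact ⟨_, hl, le_max_right _ _⟩
    choose z hz1 hz2 using hz
    obtain ⟨d, ⟨hd1, hd2⟩, hd3, hd4⟩ := hδ (Finset.univ.image z) (fun h => h.elim) (fun y hy => by
      obtain ⟨i, -, rfl⟩ := Finset.mem_image.1 hy
      exact hz2 i)
    have hx : ∀ i, ∃ x ∈ d, Le t x (z i) := fun i =>
      hd4 _ (Finset.mem_image_of_mem _ (Finset.mem_univ i))
    choose x hxd hxz using hx
    have hrx : ∀ i, Le t (r i) (x i) := fun i =>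
      le_comp ((hA a ha i).trans (hz1 i)) (hxz i) (hd1 _ (hxd i) i)
    rcases hd2 x hxd hrx with ⟨b, hb, hbx⟩ | h
    · have hab : a = b := by
        by_contra hne
        obtain ⟨i, h1, h2⟩ := hanti a ha b hb hne
        rcases le_cmp (hz1 i) ((hbx i).trans (hxz i)) with h3 | h3
        · exact h1 h3
        · exact h2 h3
      subst hab
      exact (hbx i0).1.trans_lt (hd3 _ (hxd i0))
    · obtain ⟨i, h1, h2⟩ := h a ha
      rcases le_cmp (hz1 i) (hxz i) with h3 | h3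
      · exact absurd h3 h1
      · exact absurd h3 h2
  have h1 : (Set.pi Set.univ (fun _ : Fin n => {x : Nd | x.1 < δ})).Countable :=
    Set.countable_univ_pi (fun _ => cnt_below δ)
  have h2 : A ⊆ Set.pi Set.univ (fun _ : Fin n => {x : Nd | x.1 < δ}) :=
    fun a ha i _ => key a ha i
  exact h1.mono h2

end Pool.Agent.W2helper11.DP
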